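import Pool.Agent.Helper8.Irr.PlaceS

namespace Irr87

namespace H8

variable {p : ℕ}

/-! ### runs -/

theorem chS_lt {S h : ℕ} {Ds : List ℕ} (hc : ChS p S Ds h) : ∀ D ∈ Ds, D < p := by
  obtain ⟨D, l, rfl, _, _, h3, h4⟩ := hc
  intro D' hD'
  rcases List.mem_cons.1 hD' with rfl | hD'
  · exact h3
  · exact h4.le D' hD'

theorem Runs_append : ∀ {r1 r2 : List (ℕ × ℕ)} {D1 D2 : List (List ℕ)} {h1 h2 : List ℕ},
    Runs p r1 D1 h1 → Runs p r2 D2 h2 → Runs p (r1 ++ r2) (D1 ++ D2) (h1 ++ h2)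
  | [], _, [], _, [], _, _, h => h
  | [], _, [], _, _ :: _, _, h, _ => by simp [Runs] at h
  | [], _, _ :: _, _, _, _, h, _ => by simp [Runs] at h
  | (_, _) :: _, _, [], _, _, _, h, _ => by simp [Runs] at h
  | (_, _) :: _, _, _ :: _, _, [], _, h, _ => by simp [Runs] at h
  | (_, _) :: _, _, _ :: _, _, _ :: _, _, h, h' => ⟨h.1, h.2.1, h.2.2.1, Runs_append h.2.2.2 h'⟩

theorem Runs_facts : ∀ {rs : List (ℕ × ℕ)} {Dss : List (List ℕ)} {hs : List ℕ},
    Runs p rs Dss hs → hs.length = rs.length ∧ Dss.flatten.length = (rs.map Prod.fst).sum ∧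
      (∀ h ∈ hs, h < p) ∧ (∀ D ∈ Dss.flatten, D < p) ∧ hs.sum ≤ p * rs.length
  | [], [], [], _ => by simp
  | [], [], _ :: _, h => by simp [Runs] at h
  | [], _ :: _, _, h => by simp [Runs] at h
  | (_, _) :: _, [], _, h => by simp [Runs] at h
  | (_, _) :: _, _ :: _, [], h => by simp [Runs] at h
  | (n, S) :: rs, Ds :: Dss, h :: hs, hr => by
    obtain ⟨h1, h2, h3, h4⟩ := hr
    obtain ⟨i1, i2, i3, i4, i5⟩ := Runs_facts h4
    refine ⟨by simp [i1], ?_, ?_, ?_, ?_⟩
    · simp only [List.flatten_cons, List.length_append, List.map_cons, List.sum_cons, h1, i2]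
    · intro x hx
      rcases List.mem_cons.1 hx with rfl | hx
      · exact h3
      · exact i3 x hx
    · intro D hD
      rw [List.flatten_cons, List.mem_append] at hD
      rcases hD with hD | hD
      · exact chS_lt h2 D hD
      · exact i4 D hD
    · simp only [List.sum_cons, List.length_cons]
      rw [Nat.mul_add, Nat.mul_one]
      omega

/-! ### weights of level two -/

/-- The used weights together with those of the deficits `l`. -/
def ad (p : ℕ) (V : Finset ℕ) (l : List ℕ) : Finset ℕ := V ∪ (l.map (fun D => 2 * p - D)).toFinset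

theorem mem_ad {V : Finset ℕ} {l : List ℕ} {w : ℕ} :
    w ∈ ad p V l ↔ w ∈ V ∨ ∃ D ∈ l, 2 * p - D = w := by
  simp [ad]

theorem ad_sub {V : Finset ℕ} {l : List ℕ} : V ⊆ ad p V l := Finset.subset_union_left

theorem ad_card {V : Finset ℕ} {l : List ℕ} (h1 : l.Nodup) (h2 : ∀ D ∈ l, D < p)
    (h3 : ∀ D ∈ l, 2 * p - D ∉ V) : (ad p V l).card = V.card + l.length := by
  unfold ad
  rw [Finset.card_union_of_disjoint, List.toFinset_card_of_nodup, List.length_map]
  · apply h1.map_on
    intro x hx y hy hxy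
    have := h2 x hx
    have := h2 y hy
    omega
  · rw [Finset.disjoint_left]
    intro w hw hw'
    rw [List.mem_toFinset, List.mem_map] at hw'
    obtain ⟨D, hD, rfl⟩ := hw'
    exact h3 D hD hw

theorem ad_card_le {V : Finset ℕ} {l : List ℕ} : (ad p V l).card ≤ V.card + l.length := by
  unfold ad
  refine (Finset.card_union_le _ _).trans ?_
  have := List.toFinset_card_le (l.map (fun D => 2 * p - D))
  rw [List.length_map] at this
  omega

theorem In_mono {V V' : Finset ℕ} {z : ℕ} (h : V ⊆ V') (hI : In p V z) : In p V' z := by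
  intro y hy
  exact (hI y hy).trans (Finset.card_le_card (Finset.filter_subset_filter _ h))

theorem In_zero {V : Finset ℕ} : In p V 0 := by
  intro y hy
  omega

/-- Combining a placement with a star solved afterwards. -/
theorem star_comb {V : Finset ℕ} {C C' : ℕ} {runs rs : List (ℕ × ℕ)} {Dss0 : List (List ℕ)}
    {hs0 : List ℕ} (hr : Runs p rs Dss0 hs0) (hnd : Dss0.flatten.Nodup)
    (hfree : ∀ D ∈ Dss0.flatten, 2 * p - D ∉ V) (hC : C' + hs0.sum = C + p * rs.length)
    (h : Star p (ad p V Dss0.flatten) C' runs) : Star p V C (runs ++ rs) := by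
  obtain ⟨Dss, hs, w, h1, h2, h3, h4, h5, h6⟩ := h
  obtain ⟨i1, i2, i3, i4, i5⟩ := Runs_facts hr
  obtain ⟨j1, j2, j3, j4, j5⟩ := Runs_facts h1
  refine ⟨Dss ++ Dss0, hs ++ hs0, w, Runs_append h1 hr, ?_, ?_, ?_, h5, ?_⟩
  · rw [List.flatten_append, List.nodup_append]
    refine ⟨h2, hnd, ?_⟩
    intro D hD D' hD' he
    subst he
    exact (h3 D hD).1 (mem_ad.2 (Or.inr ⟨D, hD', rfl⟩))
  · intro D hD
    rw [List.flatten_append, List.mem_append] at hD
    rcases hD with hD | hD
    · exact ⟨fun h => (h3 D hD).1 (ad_sub h), (h3 D hD).2⟩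
    · refine ⟨hfree D hD, ?_⟩
      intro he
      exact h6 (mem_ad.2 (Or.inr ⟨D, hD, he⟩))
  · rw [List.sum_append, List.length_append, Nat.mul_add]
    omega
  · exact fun h => h6 (ad_sub h)

theorem opn_length (ns : List ℕ) : (opn p ns).length = ns.length := by simp [opn]

theorem opn_fst (ns : List ℕ) : ((opn p ns).map Prod.fst).sum = ns.sum := by
  simp [opn, Function.comp_def]

end H8

theorem star1 (hP : Place) (hF : Final) : Star1 := by
  intro p s z K C V ns n S hns hev hn1 hS1 hS2 hK hI hC hcard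
  obtain ⟨Dss, hs, μ, a1, a2, a3, a4, a5, a6, a7, a8⟩ := hP p V ns hns (by omega)
  obtain ⟨i1, i2, i3, i4, i5⟩ := H8.Runs_facts a1
  rw [H8.opn_length] at i5 i1
  rw [H8.opn_fst] at i2
  obtain ⟨C', hC'⟩ : ∃ C', C' + hs.sum = C + p * ns.length := ⟨C + p * ns.length - hs.sum, by omega⟩
  have hVc := H8.ad_card a2 i4 a3
  rw [i2] at hVc
  have hmul : p * (ns.length + 1) = p * ns.length + p := by ring
  rw [hmul] at hC
  generalize (oddc ns - 1) * p = Q at hC a6
  obtain ⟨Ds, h, w, b1, b2, b3, b4, b5, b6, b7, b8⟩ :=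
    hF p s z (K + hs.sum - Q) μ n S (C' + p) (H8.ad p V Dss.flatten)
      hev hn1 hS1 hS2 (by omega) a4 (fun D hD => by
        rcases a5 D hD with h | h
        · exact H8.ad_sub h
        · exact H8.mem_ad.2 (Or.inr ⟨D, h, rfl⟩)) (H8.In_mono H8.ad_sub hI) (by omega) (by omega)
  have key : Star p (H8.ad p V Dss.flatten) C' [(n, S)] := by
    refine ⟨[Ds], [h], w, ⟨b1, b2, b3, trivial⟩, by simpa using b4, ?_, ?_, b7, b8⟩
    · intro D hD
      rw [List.flatten_cons, List.flatten_nil, List.append_nil] at hD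
      exact b5 D hD
    · simp only [List.sum_cons, List.sum_nil, List.length_cons, List.length_nil]
      omega
  have := H8.star_comb (C := C) a1 a2 a3 (by rw [H8.opn_length]; exact hC') key
  exact this

end Irr87
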