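import Pool.Agent.Helper87.Irr.Basics2

namespace Irr87

/-- A4 with the additional information that the used initial segment is not empty. -/
def PlaceS : Prop := ∀ (p : ℕ) (V : Finset ℕ) (ns : List ℕ), (∀ n ∈ ns, 1 ≤ n) →
  V.card + ns.sum ≤ p →
  ∃ (Dss : List (List ℕ)) (hs : List ℕ) (μ : ℕ), Runs p (opn p ns) Dss hs ∧ Dss.flatten.Nodup ∧
    (∀ D ∈ Dss.flatten, 2 * p - D ∉ V) ∧ μ ≤ p ∧
    (∀ D < μ, 2 * p - D ∈ V ∨ D ∈ Dss.flatten) ∧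
    hs.sum + min 1 (oddc ns) ≤ μ + (oddc ns - 1) * p ∧
    (∀ D ∈ Dss.flatten, D < V.card + ns.sum) ∧ (∀ h ∈ hs, h < V.card + ns.sum) ∧
    (ns ≠ [] → 1 ≤ μ)

theorem place_of_placeS (h : PlaceS) : Place := by
  intro p V ns h1 h2
  obtain ⟨Dss, hs, μ, a1, a2, a3, a4, a5, a6, a7, a8, _⟩ := h p V ns h1 h2
  exact ⟨Dss, hs, μ, a1, a2, a3, a4, a5, a6, a7, a8⟩

end Irr87
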