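import Pool.Agent.Helper8.Irr.Comb

namespace Irr87

namespace H8

variable {p : ℕ}

theorem exists_smallest (A : Finset ℕ) : ∀ m ≤ A.card, ∃ B ⊆ A, B.card = m ∧
    ∀ x ∈ B, ∀ y ∈ A, y ∉ B → x < y := by
  intro m
  induction m with
  | zero => intro _; exact ⟨∅, by simp, rfl, by simp⟩
  | succ m ih =>
    intro hm
    obtain ⟨B, hB, hc, h⟩ := ih (by omega)
    have hne : (A \ B).Nonempty := by
      rw [← Finset.card_pos, Finset.card_sdiff_of_subset hB]
      omega
    set x := (A \ B).min' hne with hx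
    have hxm : x ∈ A \ B := Finset.min'_mem _ hne
    rw [Finset.mem_sdiff] at hxm
    refine ⟨insert x B, ?_, ?_, ?_⟩
    · intro y hy
      rcases Finset.mem_insert.1 hy with rfl | hy
      · exact hxm.1
      · exact hB hy
    · rw [Finset.card_insert_of_notMem hxm.2, hc]
    · intro y hy z hz hzn
      rw [Finset.mem_insert, not_or] at hzn
      rcases Finset.mem_insert.1 hy with rfl | hy
      · have h1 : x ≤ z := Finset.min'_le _ _ (Finset.mem_sdiff.2 ⟨hz, hzn.2⟩)
        have h2 := hzn.1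
        omega
      · exact h y hy z hz hzn.2

theorem exists_list (B : Finset ℕ) : ∃ L : List ℕ, L.Nodup ∧ (∀ x, x ∈ L ↔ x ∈ B) ∧
    L.length = B.card ∧ L.Pairwise (· < ·) :=
  ⟨B.sort, Finset.sort_nodup _ _, fun _ => Finset.mem_sort _, Finset.length_sort _,
    (Finset.sortedLT_sort B).pairwise⟩

theorem chain_even (hi : ℕ) : ∀ (k : ℕ) (l : List ℕ) (c lo : ℕ), l.length = 2 * k →
    l.Pairwise (· < ·) → (∀ x ∈ l, c ≤ x) → (∀ x ∈ l, x < p) → (∀ x ∈ l, lo ≤ x) →
    (∀ x ∈ l, x ≤ hi) → lo ≤ hi → ∃ h, Chain p c l h ∧ c ≤ h ∧ h + lo ≤ c + hi := by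
  intro k
  induction k with
  | zero =>
    intro l c lo hl _ _ _ _ _ h
    have : l = [] := List.length_eq_zero_iff.1 (by omega)
    subst this
    exact ⟨c, rfl, le_rfl, by omega⟩
  | succ k ih =>
    intro l c lo hl hs hc hp hlo hhi h
    obtain ⟨x, l1, rfl⟩ : ∃ x l1, l = x :: l1 := by
      cases l with
      | nil => simp at hl
      | cons x l1 => exact ⟨x, l1, rfl⟩
    obtain ⟨y, l2, rfl⟩ : ∃ y l2, l1 = y :: l2 := by
      cases l1 with
      | nil => simp at hl; omega
      | cons y l2 => exact ⟨y, l2, rfl⟩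
    rw [List.pairwise_cons, List.pairwise_cons] at hs
    obtain ⟨s1, s2, s3⟩ := hs
    have hx := hc x (by simp)
    have hxy := s1 y (by simp)
    have hyp := hp y (by simp)
    have hxp := hp x (by simp)
    have hlx := hlo x (by simp)
    have hyh := hhi y (by simp)
    obtain ⟨h', c1, c2, c3⟩ := ih l2 (y - (x - c)) y (by simp at hl; omega) s3
      (fun z hz => by have := s2 z hz; omega) (fun z hz => hp z (by simp [hz]))
      (fun z hz => (s2 z hz).le) (fun z hz => hhi z (by simp [hz])) hyh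
    exact ⟨h', ⟨hx, hxp, by omega, hyp, c1⟩, by omega, by omega⟩

theorem chain_odd (hi : ℕ) (k : ℕ) (l : List ℕ) (c lo : ℕ) (hl : l.length = 2 * k + 1)
    (hs : l.Pairwise (· < ·)) (hc : ∀ x ∈ l, c ≤ x) (hp : ∀ x ∈ l, x < p) (hlo : ∀ x ∈ l, lo ≤ x)
    (hhi : ∀ x ∈ l, x ≤ hi) : ∃ h, Chain p c l h ∧ lo ≤ h + c ∧ h + c ≤ hi := by
  obtain ⟨x, l1, rfl⟩ : ∃ x l1, l = x :: l1 := by
    cases l with
    | nil => simp at hl
    | cons x l1 => exact ⟨x, l1, rfl⟩
  rw [List.pairwise_cons] at hs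
  obtain ⟨s1, s2⟩ := hs
  have hx := hc x (by simp)
  have hxp := hp x (by simp)
  have hlx := hlo x (by simp)
  have hxh := hhi x (by simp)
  obtain ⟨h', c1, c2, c3⟩ := chain_even (p := p) hi k l1 (x - c) x (by simp at hl; omega) s2
    (fun z hz => by have := s1 z hz; omega) (fun z hz => hp z (by simp [hz]))
    (fun z hz => (s1 z hz).le) (fun z hz => hhi z (by simp [hz])) hxh
  exact ⟨h', ⟨hx, hxp, c1⟩, by omega, by omega⟩

theorem chs_of {S h : ℕ} {Ds : List ℕ} (hS : S ≤ p) (_hS0 : 1 ≤ S) (hne : Ds ≠ [])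
    (hc : Chain p (p - S) Ds h) : ChS p S Ds h := by
  cases Ds with
  | nil => exact absurd rfl hne
  | cons D l =>
    obtain ⟨h1, h2, h3⟩ := hc
    refine ⟨D, l, rfl, by omega, by omega, h2, ?_⟩
    have e : S + D - p = D - (p - S) := by omega
    rw [e]; exact h3

/-- The free deficits. -/
def fr (p : ℕ) (V : Finset ℕ) : Finset ℕ := (Finset.range p).filter (fun D => 2 * p - D ∉ V)

theorem mem_fr {V : Finset ℕ} {D : ℕ} : D ∈ fr p V ↔ D < p ∧ 2 * p - D ∉ V := by
  simp [fr]

theorem fr_card {V : Finset ℕ} :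
    p + (V.filter (fun v => 2 * p < v)).card ≤ (fr p V).card + V.card := by
  have h1 : ((Finset.range p).filter (fun D => 2 * p - D ∈ V)).card + (fr p V).card = p := by
    have := Finset.card_filter_add_card_filter_not (s := Finset.range p)
      (fun D => 2 * p - D ∈ V)
    rw [Finset.card_range] at this
    exact this
  have h2 : ((Finset.range p).filter (fun D => 2 * p - D ∈ V)).card ≤
      (V.filter (fun v => ¬ 2 * p < v)).card := by
    apply Finset.card_le_card_of_injOn (fun D => 2 * p - D)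
    · intro D hD
      rw [Finset.mem_coe, Finset.mem_filter, Finset.mem_range] at hD
      rw [Finset.mem_coe, Finset.mem_filter]
      exact ⟨hD.2, by show ¬ 2 * p < 2 * p - D; omega⟩
    · intro D hD D' hD' he
      rw [Finset.mem_coe, Finset.mem_filter, Finset.mem_range] at hD hD'
      simp only at he
      omega
  have h3 := Finset.card_filter_add_card_filter_not (s := V) (fun v => 2 * p < v)
  omega

/-- What sub-lemma B produces. -/
def Out (p S n m c a : ℕ) (V : Finset ℕ) : Prop :=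
  ∃ (Ds2 : List ℕ) (h2 : ℕ) (Ds1 : List ℕ) (h1 w : ℕ), Ds2.length = m ∧ Chain p c Ds2 h2 ∧
    Ds1.length = n ∧ ChS p S Ds1 h1 ∧ h1 < p ∧ (Ds2 ++ Ds1).Nodup ∧
    (∀ D ∈ Ds2 ++ Ds1, 2 * p - D ∉ V ∧ 2 * p - D ≠ w) ∧ w + h2 + h1 = a ∧ p < w ∧ w ∉ V

/-- Case (iii). -/
theorem caseThree {s S n k μ a c : ℕ} {V : Finset ℕ} (hev : Even n) (hn : 1 ≤ n) (hS : S ≤ p)
    (hS' : p ≤ S + s) (hμ : ∀ D < μ, 2 * p - D ∈ V) (hμ1 : 1 ≤ μ) (ha : 3 * p + 1 ≤ a + μ)
    (hc : c ≤ s + 1) (hcard : V.card + 1 + n + 2 * (k + 1) + s ≤ p + 1)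
    (hf : ∃ f ∈ fr p V, f < c)
    (hno : ∀ b ∈ fr p V, c ≤ b → ∀ b' ∈ fr p V, b' < b → b' + c < b) :
    Out p S n (2 * (k + 1)) c a V := by
  classical
  obtain ⟨f, hfF, hfc⟩ := hf
  set F := fr p V with hF
  set κ := p - S with hκ
  set T := (V.filter (fun v => 2 * p < v)).card with hT
  have hFcard : p + T ≤ F.card + V.card := fr_card
  set Ff := F.filter (fun D => D < c) with hFf
  set Fb := F.filter (fun D => ¬ D < c) with hFb
  have hsplit : Ff.card + Fb.card = F.card := Finset.card_filter_add_card_filter_not _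
  have hpos : ∀ D ∈ F, 1 ≤ D := by
    intro D hD
    by_contra h0
    have h1 : D = 0 := by omega
    subst h1
    exact (mem_fr.1 hD).2 (hμ 0 (by omega))
  have hj : Ff.card + 1 ≤ c := by
    have h1 : Ff ⊆ Finset.Ico 1 c := by
      intro D hD
      rw [hFf, Finset.mem_filter] at hD
      rw [Finset.mem_Ico]
      exact ⟨hpos D hD.1, hD.2⟩
    have h2 := Finset.card_le_card h1
    rw [Nat.card_Ico] at h2
    omega
  -- leg 2
  obtain ⟨M2, hM2, hM2c, hM2s⟩ := exists_smallest Fb (2 * (k + 1)) (by omega)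
  set R := Fb \ M2 with hR
  have hRc : R.card = Fb.card - 2 * (k + 1) := by
    rw [hR, Finset.card_sdiff_of_subset hM2, hM2c]
  set K := R.filter (fun D => D < κ) with hK
  set G := R.filter (fun D => ¬ D < κ) with hG
  have hKG : K.card + G.card = R.card := Finset.card_filter_add_card_filter_not _
  have hjk : Ff.card + K.card ≤ s := by
    by_cases hK0 : K.card = 0
    · omega
    · have h1 : K.Nonempty := Finset.card_pos.1 (by omega)
      obtain ⟨y, hy⟩ := h1
      have hy' : y ∈ Fb ∧ y < κ := by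
        rw [hK, Finset.mem_filter, hR, Finset.mem_sdiff] at hy
        exact ⟨hy.1.1, hy.2⟩
      have hcy : c ≤ y := by
        have := (Finset.mem_filter.1 hy'.1).2
        omega
      have h2 : Ff ∪ K ⊆ Finset.Ico 1 κ := by
        intro D hD
        rw [Finset.mem_Ico]
        rcases Finset.mem_union.1 hD with hD | hD
        · rw [hFf, Finset.mem_filter] at hD
          exact ⟨hpos D hD.1, by omega⟩
        · rw [hK, Finset.mem_filter, hR, Finset.mem_sdiff, hFb, Finset.mem_filter] at hD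
          exact ⟨hpos D hD.1.1.1, hD.2⟩
      have h3 : Disjoint Ff K := by
        rw [Finset.disjoint_left]
        intro D hD hD'
        rw [hFf, Finset.mem_filter] at hD
        rw [hK, Finset.mem_filter, hR, Finset.mem_sdiff, hFb, Finset.mem_filter] at hD'
        exact hD'.1.1.2 hD.2
      have h4 := Finset.card_le_card h2
      rw [Finset.card_union_of_disjoint h3, Nat.card_Ico] at h4
      omega
  have hn2 : 2 ≤ n := by
    obtain ⟨r, hr⟩ := hev
    omega
  obtain ⟨M1, hM1, hM1c, hM1s⟩ := exists_smallest G (n - 1) (by omega)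
  set Ch := G \ M1 with hCh
  have hChc : Ch.card = G.card - (n - 1) := by
    rw [hCh, Finset.card_sdiff_of_subset hM1, hM1c]
  have hCh1 : s + T + 1 ≤ Ch.card + Ff.card + K.card := by omega
  -- lists
  obtain ⟨L2, l21, l22, l23, l24⟩ := exists_list M2
  obtain ⟨L1, l11, l12, l13, l14⟩ := exists_list M1
  have hM2ne : M2.Nonempty := Finset.card_pos.1 (by omega)
  have hM1ne : M1.Nonempty := Finset.card_pos.1 (by omega)
  set b1 := M2.min' hM2ne with hb1
  set bm := M2.max' hM2ne with hbm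
  set x := M1.min' hM1ne with hx
  set y := M1.max' hM1ne with hy
  have hb1m : b1 ∈ M2 := Finset.min'_mem _ _
  have hbmm : bm ∈ M2 := Finset.max'_mem _ _
  have hxm : x ∈ M1 := Finset.min'_mem _ _
  have hym : y ∈ M1 := Finset.max'_mem _ _
  have memFb : ∀ D ∈ Fb, D ∈ F ∧ c ≤ D := by
    intro D hD
    rw [hFb, Finset.mem_filter] at hD
    exact ⟨hD.1, by omega⟩
  have memR : ∀ D ∈ R, D ∈ Fb ∧ D ∉ M2 := fun D hD => Finset.mem_sdiff.1 hD
  have memG : ∀ D ∈ G, D ∈ R ∧ κ ≤ D := by
    intro D hD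
    rw [hG, Finset.mem_filter] at hD
    exact ⟨hD.1, by omega⟩
  have ltp : ∀ D ∈ F, D < p := fun D hD => (mem_fr.1 hD).1
  obtain ⟨h2, c1, c2, c3⟩ := chain_even (p := p) bm (k + 1) L2 c b1 (by omega) l24
    (fun D hD => (memFb D (hM2 ((l22 D).1 hD))).2)
    (fun D hD => ltp D (memFb D (hM2 ((l22 D).1 hD))).1)
    (fun D hD => Finset.min'_le _ _ ((l22 D).1 hD))
    (fun D hD => Finset.le_max' _ _ ((l22 D).1 hD)) (Finset.min'_le _ _ hbmm)
  obtain ⟨r, hr⟩ := hev
  obtain ⟨c4, d1, d2, d3⟩ := chain_odd (p := p) y (r - 1) L1 κ x (by omega) l14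
    (fun D hD => (memG D (hM1 ((l12 D).1 hD))).2)
    (fun D hD => ltp D (memFb D (memR D (memG D (hM1 ((l12 D).1 hD))).1).1).1)
    (fun D hD => Finset.min'_le _ _ ((l12 D).1 hD))
    (fun D hD => Finset.le_max' _ _ ((l12 D).1 hD))
  -- spacing
  have hxF : x ∈ F ∧ c ≤ x := memFb x (memR x (memG x (hM1 hxm)).1).1
  have hsp : bm + K.card + c + 1 ≤ x := by
    have key : ∀ (A : Finset ℕ), (∀ D ∈ A, D ∈ F ∧ bm ≤ D ∧ D < x) → bm ∈ A →
        bm + A.card + c ≤ x := by
      intro A hA hbA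
      have hne : A.Nonempty := ⟨bm, hbA⟩
      have hmx := A.max'_mem hne
      obtain ⟨e1, e2, e3⟩ := hA _ hmx
      have h1 := hno x hxF.1 hxF.2 _ e1 e3
      have h2 : A ⊆ Finset.Icc bm (A.max' hne) := by
        intro D hD
        rw [Finset.mem_Icc]
        exact ⟨(hA D hD).2.1, Finset.le_max' _ _ hD⟩
      have h3 := Finset.card_le_card h2
      rw [Nat.card_Icc] at h3
      omega
    have hbmK : bm ∉ K := by
      intro h
      rw [hK, Finset.mem_filter] at h
      exact (memR _ h.1).2 hbmm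
    have h1 := key (insert bm K) (by
      intro D hD
      rcases Finset.mem_insert.1 hD with rfl | hD
      · refine ⟨(memFb _ (hM2 hbmm)).1, le_rfl, ?_⟩
        have := memR x (memG x (hM1 hxm)).1
        exact hM2s _ hbmm x this.1 this.2
      · rw [hK, Finset.mem_filter] at hD
        have e1 := memR _ hD.1
        refine ⟨(memFb _ e1.1).1, (hM2s _ hbmm D e1.1 e1.2).le, ?_⟩
        have := (memG x (hM1 hxm)).2
        omega) (Finset.mem_insert_self _ _)
    rw [Finset.card_insert_of_notMem hbmK] at h1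
    omega
  have hfb : μ + c + 1 ≤ b1 := by
    have h1 : μ ≤ f := by
      by_contra hcon
      exact (mem_fr.1 hfF).2 (hμ f (by omega))
    have h2 := memFb b1 (hM2 hb1m)
    have h3 := hno b1 h2.1 h2.2 f hfF (by omega)
    omega
  -- good choices
  have memCh : ∀ D ∈ Ch, D ∈ G ∧ D ∉ M1 ∧ y < D ∧ D < p := by
    intro D hD
    obtain ⟨e1, e2⟩ := Finset.mem_sdiff.1 hD
    exact ⟨e1, e2, hM1s y hym D e1 e2, ltp D (memFb D (memR D (memG D e1).1).1).1⟩
  set Gd := Ch.filter (fun D => D + κ + bm < p + 2 + x) with hGd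
  have hbad : (Ch.filter (fun D => ¬ D + κ + bm < p + 2 + x)).card + Ff.card + K.card ≤ s := by
    have h1 : Ch.filter (fun D => ¬ D + κ + bm < p + 2 + x) ⊆
        Finset.Ico (p + 2 + x - bm - κ) p := by
      intro D hD
      rw [Finset.mem_filter] at hD
      rw [Finset.mem_Ico]
      exact ⟨by omega, (memCh D hD.1).2.2.2⟩
    have h2 := Finset.card_le_card h1
    rw [Nat.card_Ico] at h2
    omega
  have hGdc : T + 1 ≤ Gd.card := by
    have h1 : Gd.card + (Ch.filter (fun D => ¬ D + κ + bm < p + 2 + x)).card = Ch.card :=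
      Finset.card_filter_add_card_filter_not _
    omega
  have hab : h2 + b1 ≤ c + bm := c3
  have hbmp : bm < p := ltp _ (memFb _ (hM2 hbmm)).1
  -- the weight for the choice D
  have hw : ∀ D ∈ Gd, 2 * p < a - h2 - (D - c4) ∧ a - h2 - (D - c4) + h2 + (D - c4) = a ∧
      c4 ≤ D ∧ D < p := by
    intro D hD
    rw [hGd, Finset.mem_filter] at hD
    obtain ⟨e1, e2, e3, e4⟩ := memCh D hD.1
    have := hD.2
    refine ⟨by omega, by omega, by omega, e4⟩
  obtain ⟨D, hD, hDV⟩ : ∃ D ∈ Gd, a - h2 - (D - c4) ∉ V := by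
    by_contra hcon
    push Not at hcon
    have h1 : Gd.card ≤ T := by
      rw [hT]
      apply Finset.card_le_card_of_injOn (fun D => a - h2 - (D - c4))
      · intro D hD
        rw [Finset.mem_coe] at hD
        rw [Finset.mem_coe, Finset.mem_filter]
        exact ⟨hcon D hD, (hw D hD).1⟩
      · intro D hD D' hD' he
        rw [Finset.mem_coe] at hD hD'
        simp only at he
        have e1 := hw D hD
        have e2 := hw D' hD'
        omega
    omega
  obtain ⟨w1, w2, w3, w4⟩ := hw D hD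
  have hDCh : D ∈ Ch := (Finset.mem_filter.1 hD).1
  obtain ⟨e1, e2, e3, e4⟩ := memCh D hDCh
  have hall : ∀ D' ∈ L2 ++ (L1 ++ [D]), D' ∈ F := by
    intro D' hD'
    rw [List.mem_append, List.mem_append, List.mem_singleton] at hD'
    rcases hD' with h | h | h
    · exact (memFb _ (hM2 ((l22 _).1 h))).1
    · exact (memFb _ (memR _ (memG _ (hM1 ((l12 _).1 h))).1).1).1
    · rw [h]; exact (memFb _ (memR _ (memG _ e1).1).1).1
  refine ⟨L2, h2, L1 ++ [D], D - c4, a - h2 - (D - c4), by omega, c1, ?_, ?_, by omega, ?_, ?_,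
    w2, by omega, hDV⟩
  · rw [List.length_append, List.length_singleton]; omega
  · apply chs_of hS (by omega) (by simp)
    exact d1.append ⟨w3, w4, rfl⟩
  · rw [List.nodup_append]
    refine ⟨l21, ?_, ?_⟩
    · rw [List.nodup_append]
      refine ⟨l11, by simp, ?_⟩
      intro z hz z' hz' he
      rw [List.mem_singleton] at hz'
      subst he
      rw [hz'] at hz
      exact e2 ((l12 _).1 hz)
    · intro z hz z' hz' he
      subst he
      have h1 := (l22 _).1 hz
      rw [List.mem_append, List.mem_singleton] at hz'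
      rcases hz' with h | h
      · exact (memR _ (memG _ (hM1 ((l12 _).1 h))).1).2 h1
      · rw [h] at h1
        exact (memR _ (memG _ e1).1).2 h1
  · intro D' hD'
    have h1 := mem_fr.1 (hall D' hD')
    exact ⟨h1.2, by omega⟩

/-- Sub-lemma B. -/
theorem subB (hFin : Final) {s S n : ℕ} (hev : Even n) (hn : 1 ≤ n) (hS : S ≤ p)
    (hS' : p ≤ S + s) : ∀ (k : ℕ) (V : Finset ℕ) (μ a c : ℕ), (∀ D < μ, 2 * p - D ∈ V) → μ ≤ p →
    1 ≤ μ → 3 * p + 1 ≤ a + μ → c ≤ s + 1 → c < p → V.card + 1 + n + 2 * k + s ≤ p + 1 →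
    Out p S n (2 * k) c a V := by
  classical
  intro k
  induction k with
  | zero =>
    intro V μ a c hμ hμp hμ1 ha hc hcp hcard
    obtain ⟨Ds, h, w, b1, b2, b3, b4, b5, b6, b7, b8⟩ :=
      hFin p s 0 (3 * p - a + c) μ n S (a - c) V hev hn hS' (by omega) (by omega) hμp hμ In_zero
        (by omega) (by omega)
    refine ⟨[], c, Ds, h, w, rfl, rfl, b1, b2, b3, by simpa using b4, ?_, by omega, b7, b8⟩
    simpa using b5
  | succ k ih =>
    intro V μ a c hμ hμp hμ1 ha hc hcp hcard
    by_cases hpair : ∃ b b', b ∈ fr p V ∧ b' ∈ fr p V ∧ c ≤ b ∧ b' < b ∧ b ≤ b' + c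
    · obtain ⟨b, b', hb, hb', h1, h2, h3⟩ := hpair
      have hbp := mem_fr.1 hb
      have hbp' := mem_fr.1 hb'
      have hVc : (ad p V [b, b']).card ≤ V.card + 2 := ad_card_le
      obtain ⟨Ds2, h2', Ds1, h1', w, q1, q2, q3, q4, q5, q6, q7, q8, q9, q10⟩ :=
        ih (ad p V [b, b']) μ a (b' - (b - c)) (fun D hD => ad_sub (hμ D hD)) hμp hμ1 ha
          (by omega) (by omega) (by omega)
      have hbV : 2 * p - b ∈ ad p V [b, b'] := mem_ad.2 (Or.inr ⟨b, by simp, rfl⟩)
      have hbV' : 2 * p - b' ∈ ad p V [b, b'] := mem_ad.2 (Or.inr ⟨b', by simp, rfl⟩)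
      have hnb : b ∉ Ds2 ++ Ds1 := fun h => (q7 b h).1 hbV
      have hnb' : b' ∉ Ds2 ++ Ds1 := fun h => (q7 b' h).1 hbV'
      refine ⟨b :: b' :: Ds2, h2', Ds1, h1', w, by simp [q1]; omega,
        ⟨h1, hbp.1, by omega, hbp'.1, q2⟩, q3, q4, q5, ?_, ?_, q8, q9, fun h => q10 (ad_sub h)⟩
      · rw [List.cons_append, List.cons_append, List.nodup_cons, List.nodup_cons]
        refine ⟨?_, hnb', q6⟩
        rw [List.mem_cons, not_or]
        exact ⟨by omega, hnb⟩
      · intro D hD
        rw [List.cons_append, List.cons_append, List.mem_cons, List.mem_cons] at hD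
        rcases hD with rfl | rfl | hD
        · exact ⟨hbp.2, fun h => q10 (h ▸ hbV)⟩
        · exact ⟨hbp'.2, fun h => q10 (h ▸ hbV')⟩
        · exact ⟨fun h => (q7 D hD).1 (ad_sub h), (q7 D hD).2⟩
    · push Not at hpair
      by_cases hf : ∃ f ∈ fr p V, f < c
      · apply caseThree hev hn hS hS' hμ hμ1 ha hc hcard hf
        intro b hb hcb b' hb' hlt
        exact hpair b b' hb hb' hcb hlt
      · push Not at hf
        have hcF := fr_card (p := p) (V := V)
        obtain ⟨M, hM, hMc, hMs⟩ := exists_smallest (fr p V) (2 * (k + 1)) (by omega)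
        obtain ⟨L, l1, l2, l3, l4⟩ := exists_list M
        have hMne : M.Nonempty := Finset.card_pos.1 (by omega)
        set g1 := M.min' hMne with hg1
        set gm := M.max' hMne with hgm
        have hg1m : g1 ∈ M := Finset.min'_mem _ _
        have hgmm : gm ∈ M := Finset.max'_mem _ _
        obtain ⟨h2, c1, c2, c3⟩ := chain_even (p := p) gm (k + 1) L c g1 (by omega) l4
          (fun D hD => hf D (hM ((l2 D).1 hD)))
          (fun D hD => (mem_fr.1 (hM ((l2 D).1 hD))).1)
          (fun D hD => Finset.min'_le _ _ ((l2 D).1 hD))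
          (fun D hD => Finset.le_max' _ _ ((l2 D).1 hD)) (Finset.min'_le _ _ hgmm)
        have hgp : gm < p := (mem_fr.1 (hM hgmm)).1
        have hμg : μ ≤ g1 := by
          by_contra hcon
          exact (mem_fr.1 (hM hg1m)).2 (hμ g1 (by omega))
        have hVc : (ad p V L).card ≤ V.card + L.length := ad_card_le
        obtain ⟨Ds, h, w, b1, b2, b3, b4, b5, b6, b7, b8⟩ :=
          hFin p s 0 (3 * p - a + h2) (gm + 1) n S (a - h2) (ad p V L) hev hn hS' (by omega)
            (by omega) (by omega) (by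
              intro D hD
              by_cases hDF : D ∈ fr p V
              · have hDM : D ∈ M := by
                  by_contra hcon
                  have := hMs gm hgmm D hDF hcon
                  omega
                exact mem_ad.2 (Or.inr ⟨D, (l2 D).2 hDM, rfl⟩)
              · rw [mem_fr, not_and, not_not] at hDF
                exact ad_sub (hDF (by omega))) In_zero (by omega) (by omega)
        refine ⟨L, h2, Ds, h, w, by omega, c1, b1, b2, b3, ?_, ?_, by omega, b7,
          fun h => b8 (ad_sub h)⟩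
        · rw [List.nodup_append]
          refine ⟨l1, b4, ?_⟩
          intro D hD D' hD' he
          subst he
          exact (b5 D hD').1 (mem_ad.2 (Or.inr ⟨D, hD, rfl⟩))
        · intro D hD
          rcases List.mem_append.1 hD with hD | hD
          · refine ⟨(mem_fr.1 (hM ((l2 D).1 hD))).2, fun h => ?_⟩
            exact b8 (mem_ad.2 (Or.inr ⟨D, hD, h⟩))
          · exact ⟨fun h => (b5 D hD).1 (ad_sub h), (b5 D hD).2⟩

end H8

theorem star2 (hP : PlaceS) (hF : Final) : Star2 := by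
  intro p s C V ns n₁ S₁ n₂ S₂ hns ho hev1 hn1 hev2 hn2 hS1 hS1' hS2 hS2' hC hcard
  obtain ⟨Dss, hs, μ, a1, a2, a3, a4, a5, a6, a7, a8, a9⟩ := hP p V ns hns (by omega)
  have hne : ns ≠ [] := by
    rintro rfl
    simp [oddc] at ho
  have hμ1 := a9 hne
  obtain ⟨i1, i2, i3, i4, i5⟩ := H8.Runs_facts a1
  rw [H8.opn_length] at i5 i1
  rw [H8.opn_fst] at i2
  obtain ⟨C', hC'⟩ : ∃ C', C' + hs.sum = C + p * ns.length := ⟨C + p * ns.length - hs.sum, by omega⟩
  have hVc := H8.ad_card a2 i4 a3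
  rw [i2] at hVc
  have hmul : p * (ns.length + 2) = p * ns.length + 2 * p := by ring
  rw [hmul] at hC
  generalize (oddc ns - 1) * p = Q at hC a6
  obtain ⟨k, hk⟩ := hev2
  have hk2 : n₂ = 2 * k := by omega
  have hns1 : 1 ≤ ns.sum := by
    cases ns with
    | nil => exact absurd rfl hne
    | cons x l =>
      have := hns x (by simp)
      rw [List.sum_cons]; omega
  have hB := H8.subB (p := p) hF hev1 hn1 hS1 hS1' k (H8.ad p V Dss.flatten) μ (C' + 2 * p)
    (p - S₂) (fun D hD => by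
        rcases a5 D hD with h | h
        · exact H8.ad_sub h
        · exact H8.mem_ad.2 (Or.inr ⟨D, h, rfl⟩)) a4 hμ1 (by omega) (by omega) (by omega) (by omega)
  obtain ⟨Ds2, h2, Ds1, h1, w, q1, q2, q3, q4, q5, q6, q7, q8, q9, q10⟩ := hB
  have key : Star p (H8.ad p V Dss.flatten) C' [(n₁, S₁), (n₂, S₂)] := by
    have hne2 : Ds2 ≠ [] := by
      rintro rfl
      simp at q1; omega
    refine ⟨[Ds1, Ds2], [h1, h2], w, ⟨q3, q4, q5, by omega, H8.chs_of hS2 (by omega) hne2 q2,
      q2.end_lt (by omega), trivial⟩, ?_, ?_, ?_, q9, q10⟩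
    · rw [List.flatten_cons, List.flatten_cons, List.flatten_nil, List.append_nil]
      exact List.nodup_append_comm.1 q6
    · intro D hD
      rw [List.flatten_cons, List.flatten_cons, List.flatten_nil, List.append_nil,
        List.mem_append] at hD
      exact q7 D (List.mem_append.2 hD.symm)
    · simp only [List.sum_cons, List.sum_nil, List.length_cons, List.length_nil]
      omega
  have := H8.star_comb (C := C) a1 a2 a3 (by rw [H8.opn_length]; exact hC') key
  exact this

end Irr87
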